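import Mathlib
import Pool.Agent.Q253.NF.Stm3
import Pool.Agent.Q290.Schur.RatA
import Pool.Agent.TH119.MX.Gal
import Pool.Agent.Q264.CM.Grp

set_option autoImplicit false
set_option linter.unusedSectionVars false

/-!
# Job RAT of project NF (helper253): the sum of the irreducible characters is a rational combination
of permutation characters
-/

namespace Pool.Agent.Q182.NF

open Pool.Agent.H541R3.ART Pool.Agent.H302R2 Pool.Agent.H302R3 Pool.Agent.W446.AS
  Pool.Agent.H302R5 Pool.Agent.Q7.TZ Pool.Agent.Q7.SZ Pool.Agent.Q7.GR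
open Pool.Agent.Q92.RT (induced)
open scoped Classical

variable {G : Type} [Group G] [Finite G]

/-- the values of a character at the powers of an element are Galois conjugate -/
theorem gal_char {σ : ℂ ≃+* ℂ} {N k : ℕ} (hσ : ∀ z : ℂ, z ^ N = 1 → σ z = z ^ k) {χ : G → ℂ}
    (hχ : χ ∈ Irr G) {g : G} (hg : g ^ N = 1) : σ (χ g) = χ (g ^ k) := by
  obtain ⟨ι, hι, ψ, n, hn⟩ := ((Pool.Agent.Q290.Schur.irr_heil hχ).toSol.zp g).comm_decomp (zpowers_comm g)
  have e1 := hn ⟨g, Subgroup.mem_zpowers g⟩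
  have e2 := hn ⟨g ^ k, Subgroup.npow_mem_zpowers g k⟩
  simp only at e1 e2
  rw [e1, e2, map_sum]
  refine Finset.sum_congr rfl fun i _ => ?_
  rw [map_mul, map_natCast, hσ]
  · congr 1
    rw [show (⟨g ^ k, Subgroup.npow_mem_zpowers g k⟩ : Subgroup.zpowers g) =
      ⟨g, Subgroup.mem_zpowers g⟩ ^ k from rfl, map_pow]
    rfl
  · rw [← Units.val_pow_eq_pow_val, ← map_pow]
    have h3 : (⟨g, Subgroup.mem_zpowers g⟩ : Subgroup.zpowers g) ^ N = 1 := Subtype.ext hg
    rw [h3, map_one, Units.val_one]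

/-- the sum of the irreducible characters -/
noncomputable def th (G : Type) [Group G] [Finite G] (g : G) : ℂ := ∑ χ ∈ irrF G, χ g

theorem th_gal (σ : ℂ ≃+* ℂ) (g : G) : σ (th G g) = th G g := by
  unfold th
  rw [map_sum]
  refine Finset.sum_bij' (fun χ _ => fun x => σ (χ x)) (fun χ _ => fun x => σ.symm (χ x)) ?_ ?_ ?_ ?_ ?_
  · intro χ hχ
    exact mem_irrF.mpr (irr_gal σ (mem_irrF.mp hχ))
  · intro χ hχ
    exact mem_irrF.mpr (irr_gal σ.symm (mem_irrF.mp hχ))
  · intro χ _
    funext x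
    simp
  · intro χ _
    funext x
    simp
  · intro χ _
    rfl

theorem th_rat (g : G) : ∃ q : ℚ, th G g = q := by
  by_contra hcon
  have h1 : th G g ∉ (algebraMap ℚ ℂ).fieldRange := by
    rintro ⟨q, hq⟩
    exact hcon ⟨q, hq.symm⟩
  obtain ⟨σ, -, h2⟩ := Pool.Agent.TH119.MX.exists_move h1
  exact h2 (th_gal σ g)

theorem th_conj (x g : G) : th G (x * g * x⁻¹) = th G g := by
  unfold th
  exact Finset.sum_congr rfl fun χ hχ => Irr.conj (mem_irrF.mp hχ) g x

theorem th_zpowers {g h : G} (hgh : Subgroup.zpowers g = Subgroup.zpowers h) :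
    th G g = th G h := by
  have hh : h ∈ Subgroup.zpowers g := by rw [hgh]; exact Subgroup.mem_zpowers h
  have hg0 : 0 < orderOf g := orderOf_pos g
  obtain ⟨k, hk⟩ : ∃ k : ℕ, g ^ k = h := by
    have := (mem_powers_iff_mem_zpowers (x := g) (y := h)).mpr hh
    exact Submonoid.mem_powers_iff _ _ |>.mp this
  have hord : orderOf h = orderOf g := by
    rw [← Nat.card_zpowers, ← Nat.card_zpowers, hgh]
  have hcop : k.Coprime (orderOf g) := by
    have h1 : orderOf (g ^ k) = orderOf g / (orderOf g).gcd k := orderOf_pow g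
    rw [hk, hord] at h1
    have h4 : 0 < Nat.gcd (orderOf g) k := Nat.gcd_pos_of_pos_left _ hg0
    have h2 : Nat.gcd (orderOf g) k = 1 := by
      by_contra hne
      have h5 := Nat.div_lt_self hg0 (show 1 < Nat.gcd (orderOf g) k by omega)
      omega
    exact (Nat.coprime_comm.mp h2)
  obtain ⟨σ, hσ⟩ := Pool.Agent.Q290.Schur.exists_sigma hg0 hcop
  rw [← th_gal σ g]
  unfold th
  rw [map_sum]
  refine Finset.sum_congr rfl fun χ hχ => ?_
  rw [gal_char hσ (mem_irrF.mp hχ) (pow_orderOf_eq_one g), hk]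

/-- the permutation character as an induced character -/
theorem induced_perm (C : Subgroup G) (g : G) :
    induced C (1 : C →* ℂˣ) g = ((Q264.CM.perm C g : ℚ) : ℂ) := by
  have : Fintype G := Fintype.ofFinite G
  have hC : (Nat.card C : ℂ) ≠ 0 := by exact_mod_cast Nat.card_pos.ne'
  have h1 : ∑ᶠ x : G, (if h : x⁻¹ * g * x ∈ C then
      (((1 : C →* ℂˣ) ⟨x⁻¹ * g * x, h⟩ : ℂˣ) : ℂ) else 0) =
      (Nat.card {x : G // x⁻¹ * g * x ∈ C} : ℂ) := by
    rw [finsum_eq_sum_of_fintype]
    have h2 : ∀ x : G, (if h : x⁻¹ * g * x ∈ C then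
        (((1 : C →* ℂˣ) ⟨x⁻¹ * g * x, h⟩ : ℂˣ) : ℂ) else 0) =
        if x⁻¹ * g * x ∈ C then 1 else 0 := by
      intro x
      by_cases h : x⁻¹ * g * x ∈ C
      · rw [dif_pos h, if_pos h]
        rfl
      · rw [dif_neg h, if_neg h]
    rw [Finset.sum_congr rfl fun x _ => h2 x, Finset.sum_boole, Nat.card_eq_fintype_card,
      Fintype.card_subtype]
  have h3 : Nat.card {x : G // x⁻¹ * g * x ∈ C} =
      Nat.card C * Nat.card {x : G ⧸ C // g • x = x} := by
    have e := QuotientGroup.preimageMkEquivSubgroupProdSet C {x : G ⧸ C | g • x = x}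
    have h4 : Nat.card {x : G // x⁻¹ * g * x ∈ C} =
        Nat.card ((QuotientGroup.mk : G → G ⧸ C) ⁻¹' {x : G ⧸ C | g • x = x}) := by
      refine Nat.card_congr (Equiv.subtypeEquivRight fun x => ?_)
      change _ ↔ ((g * x : G) : G ⧸ C) = (x : G ⧸ C)
      rw [eq_comm, QuotientGroup.eq, mul_assoc]
    rw [h4, Nat.card_congr e, Nat.card_prod]
    rfl
  unfold induced
  rw [h1, h3]
  unfold Q264.CM.perm
  push_cast
  rw [← mul_assoc, inv_mul_cancel₀ hC, one_mul]

theorem rat : Pool.Agent.Q253.NF.S_RAT := by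
  intro G _ _
  have : Fintype G := Fintype.ofFinite G
  choose f hf using fun g : G => th_rat g
  have hRC : Q264.CM.RC f := by
    refine ⟨fun x g => ?_, fun g h hgh => ?_⟩
    · have := th_conj x g
      rw [hf, hf] at this
      exact_mod_cast this
    · have := th_zpowers hgh
      rw [hf, hf] at this
      exact_mod_cast this
  have hspan := Q264.CM.artin f hRC
  rw [Submodule.mem_span_range_iff_exists_fun] at hspan
  obtain ⟨c, hc⟩ := hspan
  have : Fintype (Subgroup G) := Fintype.ofFinite _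
  refine ⟨fun H => ∑ y ∈ Finset.univ.filter (fun y : G => Subgroup.zpowers y = H), c y, fun g => ?_⟩
  have h1 : ∑ᶠ χ ∈ Irr G, χ g = th G g := by
    rw [finsum_mem_eq_finite_toFinset_sum _ (irr_finite (G := G))]
    rfl
  rw [h1, hf, finsum_eq_sum_of_fintype, ← hc]
  simp_rw [induced_perm]
  rw [Finset.sum_apply]
  push_cast
  have h2 : ∀ H : Subgroup G, ((∑ y ∈ Finset.univ.filter (fun y : G => Subgroup.zpowers y = H),
      (c y : ℂ)) * ((Q264.CM.perm H g : ℚ) : ℂ)) =
      ∑ y ∈ Finset.univ.filter (fun y : G => Subgroup.zpowers y = H),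
        (c y : ℂ) * ((Q264.CM.perm (Subgroup.zpowers y) g : ℚ) : ℂ) := by
    intro H
    rw [Finset.sum_mul]
    refine Finset.sum_congr rfl fun y hy => ?_
    rw [(Finset.mem_filter.mp hy).2]
  rw [Finset.sum_congr rfl fun H _ => h2 H,
    Finset.sum_fiberwise Finset.univ (fun y : G => Subgroup.zpowers y)
      (fun y => (c y : ℂ) * ((Q264.CM.perm (Subgroup.zpowers y) g : ℚ) : ℂ))]
  refine Finset.sum_congr rfl fun y _ => ?_
  rw [Pi.smul_apply, smul_eq_mul]
  push_cast
  rfl

end Pool.Agent.Q182.NF
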